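import Pool.Agent.helper26.B3.Check

/-! Certificate data for boxes (generated). -/

namespace Pool.Agent.helper26.B3

def xB_0 : Tr :=
  .splitP 312 (.splitP 172 (.splitP 102 (.splitP 67 (.leaf 131072 0 (-216401031) 176683897 0 0 0
  0) (.leaf 131072 0 (-250038828) 143046100 0 0 0 0)) (.splitP 137 (.leaf 131072 0 (-280443511)
  112641417 0 0 0 0) (.leaf 0 131072 (-300743836) 92341092 0 0 0 0))) (.splitP 242 (.splitP 207
  (.leaf 0 68457380 (-135255078) 121177233 68326400 66725 16 0) (.leaf (-62018937) 126425239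
  (-120954242) 19542351 64275456 62769 12 0)) (.splitP 277 (.leaf (-80044979) 156534029
  (-80279014) 0 76357979 0 0 0) (.leaf (-94322658) 192983284 (-7380504) 0 98529554 0 0 0))))
  (.splitP 452 (.splitP 382 (.leaf (-94371170) 192981386 (-7384300) 0 98479145 0 0 0) (.leaf
  (-96515513) 196673536 0 0 100026951 0 0 0)) (.splitP 522 (.leaf (-96684251) 196673536 0 0
  99858213 0 0 0) (.leaf (-96822893) 196673536 0 0 99719572 0 0 0)))

theorem xB_0_ok : Tr.ok xB_0 0 8 32 592 (-1) 16 = true := by decide +kernel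

end Pool.Agent.helper26.B3
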