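import Pool.Agent.helper26.B3.Check
import Pool.Agent.helper26.B3D.A1_0
import Pool.Agent.helper26.B3D.A2_0
import Pool.Agent.helper26.B3D.A2_1
import Pool.Agent.helper26.B3D.A2_2
import Pool.Agent.helper26.B3D.A2_3
import Pool.Agent.helper26.B3D.A2_4
import Pool.Agent.helper26.B3D.A3_0
import Pool.Agent.helper26.B3D.A3_1
import Pool.Agent.helper26.B3D.A3_2
import Pool.Agent.helper26.B3D.A4_0
import Pool.Agent.helper26.B3D.A4_1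
import Pool.Agent.helper26.B3D.A4_2
import Pool.Agent.helper26.B3D.A5_0
import Pool.Agent.helper26.B3D.A5_1
import Pool.Agent.helper26.B3D.A5_2
import Pool.Agent.helper26.B3D.B_0
import Pool.Agent.helper26.B3D.C_0

/-! Assembly of the certificate data (generated). -/

namespace Pool.Agent.helper26.B3

theorem ok_splitU {U0 U1 P0 P1 W0 W1 m : Int} {l r : Tr} (hl : l.ok U0 m P0 P1 W0 W1 = true)
    (hr : r.ok m U1 P0 P1 W0 W1 = true) :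
    (Tr.splitU m l r).ok U0 U1 P0 P1 W0 W1 = true := by
  unfold Tr.ok
  rw [hl, hr]
  rfl

theorem ok_splitP {U0 U1 P0 P1 W0 W1 m : Int} {l r : Tr} (hl : l.ok U0 U1 P0 m W0 W1 = true)
    (hr : r.ok U0 U1 m P1 W0 W1 = true) :
    (Tr.splitP m l r).ok U0 U1 P0 P1 W0 W1 = true := by
  unfold Tr.ok
  rw [hl, hr]
  rfl

theorem ok_splitW {U0 U1 P0 P1 W0 W1 m : Int} {l r : Tr} (hl : l.ok U0 U1 P0 P1 W0 m = true)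
    (hr : r.ok U0 U1 P0 P1 m W1 = true) :
    (Tr.splitW m l r).ok U0 U1 P0 P1 W0 W1 = true := by
  unfold Tr.ok
  rw [hl, hr]
  rfl

theorem exists_A1 : ∃ t : Tr, t.ok 8 64 0 592 (-1) 128 = true :=
  ⟨(Tr.splitP 296 (Tr.splitP 148 (Tr.splitP 74 (Tr.splitW 63 xA1_0 xA1_1) (Tr.splitW 63
  (Tr.splitP 111 xA1_2 (Tr.splitW 31 (Tr.splitU 36 xA1_3 xA1_4) xA1_5)) xA1_6)) (Tr.splitP 222
  xA1_7 xA1_8)) xA1_9), (ok_splitP (ok_splitP (ok_splitP (ok_splitW xA1_0_ok xA1_1_ok) (ok_splitW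
  (ok_splitP xA1_2_ok (ok_splitW (ok_splitU xA1_3_ok xA1_4_ok) xA1_5_ok)) xA1_6_ok)) (ok_splitP
  xA1_7_ok xA1_8_ok)) xA1_9_ok)⟩

theorem exists_A2 : ∃ t : Tr, t.ok 64 128 0 592 (-1) 256 = true :=
  ⟨(Tr.splitP 296 (Tr.splitP 148 (Tr.splitW 127 (Tr.splitP 74 (Tr.splitW 63 (Tr.splitP 37 xA2_0
  (Tr.splitU 96 (Tr.splitW 31 xA2_1 (Tr.splitP 55 xA2_2 xA2_3)) xA2_4)) (Tr.splitP 37 (Tr.splitU
  96 (Tr.splitW 95 xA2_5 xA2_6) (Tr.splitW 95 (Tr.splitP 18 xA2_7 (Tr.splitU 112 xA2_8 xA2_9))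
  (Tr.splitP 18 (Tr.splitU 112 xA2_10 xA2_11) xA2_12))) (Tr.splitU 96 xA2_13 (Tr.splitW 95
  (Tr.splitP 55 xA2_14 xA2_15) xA2_16)))) (Tr.splitW 63 (Tr.splitP 111 (Tr.splitU 96 (Tr.splitW
  31 xA2_17 (Tr.splitP 92 xA2_18 xA2_19)) xA2_20) (Tr.splitU 96 (Tr.splitW 31 xA2_21 xA2_22)
  xA2_23)) (Tr.splitP 111 (Tr.splitU 96 xA2_24 xA2_25) xA2_26))) (Tr.splitP 74 (Tr.splitW 191
  (Tr.splitP 37 xA2_27 xA2_28) xA2_29) xA2_30)) (Tr.splitW 127 xA2_31 xA2_32)) xA2_33),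
  (ok_splitP (ok_splitP (ok_splitW (ok_splitP (ok_splitW (ok_splitP xA2_0_ok (ok_splitU
  (ok_splitW xA2_1_ok (ok_splitP xA2_2_ok xA2_3_ok)) xA2_4_ok)) (ok_splitP (ok_splitU (ok_splitW
  xA2_5_ok xA2_6_ok) (ok_splitW (ok_splitP xA2_7_ok (ok_splitU xA2_8_ok xA2_9_ok)) (ok_splitP
  (ok_splitU xA2_10_ok xA2_11_ok) xA2_12_ok))) (ok_splitU xA2_13_ok (ok_splitW (ok_splitP
  xA2_14_ok xA2_15_ok) xA2_16_ok)))) (ok_splitW (ok_splitP (ok_splitU (ok_splitW xA2_17_ok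
  (ok_splitP xA2_18_ok xA2_19_ok)) xA2_20_ok) (ok_splitU (ok_splitW xA2_21_ok xA2_22_ok)
  xA2_23_ok)) (ok_splitP (ok_splitU xA2_24_ok xA2_25_ok) xA2_26_ok))) (ok_splitP (ok_splitW
  (ok_splitP xA2_27_ok xA2_28_ok) xA2_29_ok) xA2_30_ok)) (ok_splitW xA2_31_ok xA2_32_ok))
  xA2_33_ok)⟩

theorem exists_A3 : ∃ t : Tr, t.ok 128 192 0 592 (-1) 384 = true :=
  ⟨(Tr.splitP 296 (Tr.splitW 191 (Tr.splitP 148 (Tr.splitW 95 (Tr.splitP 74 (Tr.splitW 47 xA3_0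
  xA3_1) xA3_2) (Tr.splitP 74 (Tr.splitW 143 (Tr.splitP 37 (Tr.splitU 160 (Tr.splitW 119 xA3_3
  (Tr.splitP 18 xA3_4 xA3_5)) xA3_6) xA3_7) (Tr.splitP 37 (Tr.splitU 160 xA3_8 (Tr.splitW 167
  xA3_9 xA3_10)) xA3_11)) xA3_12)) xA3_13) (Tr.splitP 148 (Tr.splitW 287 (Tr.splitP 74 xA3_14
  xA3_15) xA3_16) (Tr.splitW 287 xA3_17 xA3_18))) xA3_19), (ok_splitP (ok_splitW (ok_splitP
  (ok_splitW (ok_splitP (ok_splitW xA3_0_ok xA3_1_ok) xA3_2_ok) (ok_splitP (ok_splitW (ok_splitP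
  (ok_splitU (ok_splitW xA3_3_ok (ok_splitP xA3_4_ok xA3_5_ok)) xA3_6_ok) xA3_7_ok) (ok_splitP
  (ok_splitU xA3_8_ok (ok_splitW xA3_9_ok xA3_10_ok)) xA3_11_ok)) xA3_12_ok)) xA3_13_ok)
  (ok_splitP (ok_splitW (ok_splitP xA3_14_ok xA3_15_ok) xA3_16_ok) (ok_splitW xA3_17_ok
  xA3_18_ok))) xA3_19_ok)⟩

theorem exists_A4 : ∃ t : Tr, t.ok 192 256 0 592 (-1) 512 = true :=
  ⟨(Tr.splitP 296 (Tr.splitW 255 (Tr.splitP 148 (Tr.splitW 127 (Tr.splitP 74 xA4_0 xA4_1)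
  (Tr.splitP 74 (Tr.splitW 191 (Tr.splitP 37 (Tr.splitU 224 (Tr.splitW 159 xA4_2 xA4_3) xA4_4)
  xA4_5) (Tr.splitP 37 (Tr.splitU 224 xA4_6 xA4_7) xA4_8)) xA4_9)) xA4_10) (Tr.splitP 148
  (Tr.splitW 383 (Tr.splitP 74 xA4_11 xA4_12) (Tr.splitP 74 xA4_13 xA4_14)) (Tr.splitW 383 xA4_15
  (Tr.splitP 222 xA4_16 xA4_17)))) (Tr.splitW 255 xA4_18 (Tr.splitP 444 xA4_19 xA4_20))),
  (ok_splitP (ok_splitW (ok_splitP (ok_splitW (ok_splitP xA4_0_ok xA4_1_ok) (ok_splitP (ok_splitW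
  (ok_splitP (ok_splitU (ok_splitW xA4_2_ok xA4_3_ok) xA4_4_ok) xA4_5_ok) (ok_splitP (ok_splitU
  xA4_6_ok xA4_7_ok) xA4_8_ok)) xA4_9_ok)) xA4_10_ok) (ok_splitP (ok_splitW (ok_splitP xA4_11_ok
  xA4_12_ok) (ok_splitP xA4_13_ok xA4_14_ok)) (ok_splitW xA4_15_ok (ok_splitP xA4_16_ok
  xA4_17_ok)))) (ok_splitW xA4_18_ok (ok_splitP xA4_19_ok xA4_20_ok)))⟩

theorem exists_A5 : ∃ t : Tr, t.ok 256 320 0 592 (-1) 640 = true :=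
  ⟨(Tr.splitW 319 (Tr.splitP 296 (Tr.splitW 159 (Tr.splitP 148 (Tr.splitW 79 xA5_0 xA5_1) xA5_2)
  (Tr.splitP 148 (Tr.splitW 239 (Tr.splitP 74 (Tr.splitW 199 xA5_3 (Tr.splitP 37 (Tr.splitU 288
  xA5_4 xA5_5) xA5_6)) xA5_7) (Tr.splitP 74 (Tr.splitW 279 (Tr.splitP 37 (Tr.splitU 288 xA5_8
  xA5_9) xA5_10) xA5_11) xA5_12)) xA5_13)) xA5_14) (Tr.splitP 296 (Tr.splitW 479 (Tr.splitP 148
  (Tr.splitW 399 xA5_15 xA5_16) xA5_17) (Tr.splitP 148 (Tr.splitW 559 xA5_18 xA5_19) (Tr.splitW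
  559 xA5_20 xA5_21))) (Tr.splitW 479 xA5_22 (Tr.splitP 444 xA5_23 xA5_24)))), (ok_splitW
  (ok_splitP (ok_splitW (ok_splitP (ok_splitW xA5_0_ok xA5_1_ok) xA5_2_ok) (ok_splitP (ok_splitW
  (ok_splitP (ok_splitW xA5_3_ok (ok_splitP (ok_splitU xA5_4_ok xA5_5_ok) xA5_6_ok)) xA5_7_ok)
  (ok_splitP (ok_splitW (ok_splitP (ok_splitU xA5_8_ok xA5_9_ok) xA5_10_ok) xA5_11_ok)
  xA5_12_ok)) xA5_13_ok)) xA5_14_ok) (ok_splitP (ok_splitW (ok_splitP (ok_splitW xA5_15_ok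
  xA5_16_ok) xA5_17_ok) (ok_splitP (ok_splitW xA5_18_ok xA5_19_ok) (ok_splitW xA5_20_ok
  xA5_21_ok))) (ok_splitW xA5_22_ok (ok_splitP xA5_23_ok xA5_24_ok))))⟩

theorem exists_B : ∃ t : Tr, t.ok 0 8 32 592 (-1) 16 = true :=
  ⟨xB_0, xB_0_ok⟩

theorem exists_C : ∃ t : Tr, t.ok 320 416 0 88 (-1) 208 = true :=
  ⟨(Tr.splitW 103 xC_0 (Tr.splitW 155 xC_1 xC_2)), (ok_splitW xC_0_ok (ok_splitW xC_1_ok
  xC_2_ok))⟩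

end Pool.Agent.helper26.B3
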